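import Pool.Agent.H398R2.BA2

/-!
The large sieve for prime moduli in a dyadic block: the characters to prime moduli near `2 ^ m` at the height
`2 ^ (2 m + 8 t)`.
-/

set_option autoImplicit false

namespace Pool.Agent.K9h59.PC

open Finset
open Pool.Agent.H398R2.BV Pool.Agent.H410R2 Pool.Agent.Helper112

/-- the height -/
noncomputable def XR (m t : ℕ) : ℝ := (2 : ℝ) ^ (2 * m + 8 * t)

/-- the part of the nonprincipal characters -/
noncomputable def DD (X : ℝ) (q : ℕ) : ℝ := (1 / (Nat.totient q : ℝ)) * ∑ ψ ∈ Prim q, ‖psiLog X q ψ‖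

theorem DD_nonneg (X : ℝ) (q : ℕ) : 0 ≤ DD X q := by unfold DD; positivity

theorem one_le_XR (m t : ℕ) : 1 ≤ XR m t := one_le_pow₀ (by norm_num)

theorem sqrt_XR (m t : ℕ) : Real.sqrt (XR m t) = (2 : ℝ) ^ (m + 4 * t) := by
  have : XR m t = ((2 : ℝ) ^ (m + 4 * t)) ^ 2 := by
    unfold XR
    rw [← pow_mul]
    congr 1
    ring
  rw [this, Real.sqrt_sq (by positivity)]

theorem DD_le (X : ℝ) (hX : 1 ≤ X) (U q : ℕ) (hU : 1 ≤ U) (hq : 2 ≤ q) :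
    DD X q ≤ 8 * U * U * q * Real.log X ^ 2 +
      (1 / (Nat.totient q : ℝ)) * ∑ ψ ∈ Prim q, ‖TL X q ψ (LamII U U)‖ := by
  unfold DD
  have hφ : (0 : ℝ) < Nat.totient q := by exact_mod_cast Nat.totient_pos.2 (by omega)
  have h1 : ∑ ψ ∈ Prim q, ‖psiLog X q ψ‖ ≤ ∑ ψ ∈ Prim q, (8 * U * U * q * Real.log X ^ 2 + ‖TL X q ψ (LamII U U)‖) :=
    sum_le_sum fun ψ hψ => norm_psiLog_le X hX U U q hU hU hq ψ (prim_ne_one hq hψ)
  rw [sum_add_distrib, sum_const, nsmul_eq_mul] at h1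
  have h2 := card_prim_le (f := q) (by omega)
  have h3 : 0 ≤ 8 * (U : ℝ) * U * q * Real.log X ^ 2 := by positivity
  calc (1 / (Nat.totient q : ℝ)) * ∑ ψ ∈ Prim q, ‖psiLog X q ψ‖
      ≤ (1 / (Nat.totient q : ℝ)) * (Nat.totient q * (8 * U * U * q * Real.log X ^ 2) +
        ∑ ψ ∈ Prim q, ‖TL X q ψ (LamII U U)‖) := by
        apply mul_le_mul_of_nonneg_left _ (by positivity)
        refine h1.trans ?_
        gcongr
    _ = _ := by
        field_simp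

theorem total_DD (m t : ℕ) (hm : 1 ≤ m) (htm : t ≤ m) :
    ∑ q ∈ (Ico (2 ^ m) (2 ^ (m + 1))).filter Nat.Prime, DD (XR m t) q ≤
      76 * (1 + Real.log (XR m t)) ^ 5 * (XR m t / 2 ^ t) := by
  have hX := one_le_XR m t
  have hL : 0 ≤ Real.log (XR m t) := Real.log_nonneg hX
  obtain ⟨L, hLd⟩ : ∃ L, L = Real.log (XR m t) := ⟨_, rfl⟩
  have hU : 1 ≤ 2 ^ (2 * t) := Nat.one_le_two_pow
  have h1 : ∑ q ∈ (Ico (2 ^ m) (2 ^ (m + 1))).filter Nat.Prime, DD (XR m t) q ≤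
      ∑ q ∈ (Ico (2 ^ m) (2 ^ (m + 1))).filter Nat.Prime,
        (8 * ((2 ^ (2 * t) : ℕ) : ℝ) * ((2 ^ (2 * t) : ℕ) : ℝ) * ((2 ^ (m + 1) : ℕ) : ℝ) * Real.log (XR m t) ^ 2 +
        (1 / (Nat.totient q : ℝ)) * ∑ ψ ∈ Prim q, ‖TL (XR m t) q ψ (LamII (2 ^ (2 * t)) (2 ^ (2 * t)))‖) := by
    apply sum_le_sum
    intro q hq
    rw [mem_filter, mem_Ico] at hq
    refine (DD_le (XR m t) hX (2 ^ (2 * t)) q hU hq.2.two_le).trans ?_
    have : (q : ℝ) ≤ ((2 ^ (m + 1) : ℕ) : ℝ) := by exact_mod_cast hq.1.2.le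
    gcongr
  have h2 : ((((Ico (2 ^ m) (2 ^ (m + 1))).filter Nat.Prime).card : ℕ) : ℝ) ≤ (2 : ℝ) ^ m := by
    have : ((Ico (2 ^ m) (2 ^ (m + 1))).filter Nat.Prime).card ≤ 2 ^ m := by
      refine (card_filter_le _ _).trans ?_
      rw [Nat.card_Ico, pow_succ]
      omega
    exact_mod_cast this
  have h3 : ∑ q ∈ (Ico (2 ^ m) (2 ^ (m + 1))).filter Nat.Prime,
      (1 / (Nat.totient q : ℝ)) * ∑ ψ ∈ Prim q, ‖TL (XR m t) q ψ (LamII (2 ^ (2 * t)) (2 ^ (2 * t)))‖ ≤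
      ∑ f ∈ Icc (2 ^ m) (2 ^ (m + 1)), (1 / (Nat.totient f : ℝ)) *
        ∑ ψ ∈ Prim f, ‖TL (XR m t) f ψ (LamII (2 ^ (2 * t)) (2 ^ (2 * t)))‖ := by
    apply sum_le_sum_of_subset_of_nonneg
    · intro q hq
      rw [mem_filter, mem_Ico] at hq
      rw [mem_Icc]
      exact ⟨hq.1.1, hq.1.2.le⟩
    · intro q _ _
      positivity
  have h4 := typeII_block (XR m t) hX (2 ^ (2 * t)) (2 ^ (2 * t)) (2 ^ m) (2 ^ (m + 1)) hU hU
    Nat.one_le_two_pow Nat.one_le_two_pow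
  have h5 : Real.sqrt (XR m t / ((2 ^ (2 * t) : ℕ) : ℝ)) = (2 : ℝ) ^ (m + 3 * t) := by
    have : XR m t / ((2 ^ (2 * t) : ℕ) : ℝ) = ((2 : ℝ) ^ (m + 3 * t)) ^ 2 := by
      unfold XR
      push_cast
      rw [div_eq_iff (by positivity), ← pow_mul, ← pow_add]
      congr 1
      ring
    rw [this, Real.sqrt_sq (by positivity)]
  rw [h5, sqrt_XR] at h4
  have h6 : Real.log ((2 ^ (m + 1) : ℕ) : ℝ) ≤ Real.log (XR m t) := by
    apply Real.log_le_log (by positivity)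
    unfold XR
    push_cast
    exact pow_le_pow_right₀ (by norm_num) (by omega)
  have h7 : ((2 : ℝ) ^ (m + 4 * t) / ((2 ^ m : ℕ) : ℝ) + ((2 : ℝ) ^ (m + 3 * t) + (2 : ℝ) ^ (m + 3 * t)) +
      ((2 ^ (m + 1) : ℕ) : ℝ)) * (2 : ℝ) ^ (m + 4 * t) ≤ 5 * (XR m t / 2 ^ t) := by
    have e1 : (2 : ℝ) ^ (m + 4 * t) / ((2 ^ m : ℕ) : ℝ) = (2 : ℝ) ^ (4 * t) := by
      push_cast
      rw [pow_add]
      field_simp
    have e2 : XR m t / 2 ^ t = (2 : ℝ) ^ (2 * m + 7 * t) := by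
      unfold XR
      rw [div_eq_iff (by positivity), ← pow_add]
      congr 1
      ring
    rw [e1, e2]
    push_cast
    have f1 : (2 : ℝ) ^ (4 * t) * 2 ^ (m + 4 * t) ≤ (2 : ℝ) ^ (2 * m + 7 * t) := by
      rw [← pow_add]
      exact pow_le_pow_right₀ (by norm_num) (by omega)
    have f2 : (2 : ℝ) ^ (m + 3 * t) * 2 ^ (m + 4 * t) = (2 : ℝ) ^ (2 * m + 7 * t) := by
      rw [← pow_add]
      congr 1
      ring
    have f3 : (2 : ℝ) ^ (m + 1) * 2 ^ (m + 4 * t) ≤ 2 * (2 : ℝ) ^ (2 * m + 7 * t) := by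
      rw [← pow_add, ← pow_succ']
      exact pow_le_pow_right₀ (by norm_num) (by omega)
    nlinarith
  rw [← hLd] at h1 h4 h6 hL ⊢
  have h8 : 12 * (1 + Real.log ((2 ^ (m + 1) : ℕ) : ℝ)) *
      ((2 : ℝ) ^ (m + 4 * t) / ((2 ^ m : ℕ) : ℝ) + ((2 : ℝ) ^ (m + 3 * t) + (2 : ℝ) ^ (m + 3 * t)) +
      ((2 ^ (m + 1) : ℕ) : ℝ)) * ((2 : ℝ) ^ (m + 4 * t) * (1 + L) ^ 3) * L ≤
      60 * (1 + L) ^ 5 * (XR m t / 2 ^ t) := by
    have hF : 0 ≤ Real.log ((2 ^ (m + 1) : ℕ) : ℝ) := Real.log_natCast_nonneg _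
    calc _ = (12 * ((1 + Real.log ((2 ^ (m + 1) : ℕ) : ℝ)) * (1 + L) ^ 3 * L)) *
        (((2 : ℝ) ^ (m + 4 * t) / ((2 ^ m : ℕ) : ℝ) + ((2 : ℝ) ^ (m + 3 * t) + (2 : ℝ) ^ (m + 3 * t)) +
        ((2 ^ (m + 1) : ℕ) : ℝ)) * (2 : ℝ) ^ (m + 4 * t)) := by ring
      _ ≤ (12 * ((1 + L) * (1 + L) ^ 3 * (1 + L))) * (5 * (XR m t / 2 ^ t)) := by
          gcongr
          linarith
      _ = _ := by ring
  have h9 : (2 : ℝ) ^ m * (8 * ((2 ^ (2 * t) : ℕ) : ℝ) * ((2 ^ (2 * t) : ℕ) : ℝ) * ((2 ^ (m + 1) : ℕ) : ℝ) * L ^ 2) ≤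
      16 * (1 + L) ^ 5 * (XR m t / 2 ^ t) := by
    have e2 : XR m t / 2 ^ t = (2 : ℝ) ^ (2 * m + 7 * t) := by
      unfold XR
      rw [div_eq_iff (by positivity), ← pow_add]
      congr 1
      ring
    have e3 : (2 : ℝ) ^ m * (8 * ((2 ^ (2 * t) : ℕ) : ℝ) * ((2 ^ (2 * t) : ℕ) : ℝ) * ((2 ^ (m + 1) : ℕ) : ℝ) * L ^ 2) =
        16 * L ^ 2 * (2 : ℝ) ^ (2 * m + 4 * t) := by
      push_cast
      have : (2 : ℝ) ^ (2 * m + 4 * t) = 2 ^ m * 2 ^ m * (2 ^ (2 * t) * 2 ^ (2 * t)) := by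
        rw [← pow_add, ← pow_add, ← pow_add]
        congr 1
        ring
      rw [this, pow_succ]
      ring
    rw [e3, e2]
    have e4 : L ^ 2 ≤ (1 + L) ^ 5 :=
      calc L ^ 2 ≤ (1 + L) ^ 2 := by gcongr; linarith
        _ ≤ (1 + L) ^ 5 := pow_le_pow_right₀ (by linarith) (by norm_num)
    have e5 : (2 : ℝ) ^ (2 * m + 4 * t) ≤ (2 : ℝ) ^ (2 * m + 7 * t) := pow_le_pow_right₀ (by norm_num) (by omega)
    gcongr
  calc _ ≤ _ := h1
    _ ≤ (2 : ℝ) ^ m * (8 * ((2 ^ (2 * t) : ℕ) : ℝ) * ((2 ^ (2 * t) : ℕ) : ℝ) * ((2 ^ (m + 1) : ℕ) : ℝ) * L ^ 2) +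
        60 * (1 + L) ^ 5 * (XR m t / 2 ^ t) := by
        rw [sum_add_distrib, sum_const, nsmul_eq_mul]
        refine add_le_add ?_ (h3.trans (le_trans ?_ h8))
        · gcongr
        · exact h4
    _ ≤ _ := by linarith

/-- a lower bound of Chebyshev -/
theorem psiLog1_ge (X : ℝ) (hX : 1000 ≤ X) : X / 5 ≤ psiLog1 X := by
  have h1 : Real.log 2 * Chebyshev.psi (X / 2) ≤ psiLog1 X := by
    unfold psiLog1 Chebyshev.psi
    rw [mul_sum]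
    have hsub : Ioc 0 ⌊X / 2⌋₊ ⊆ Icc 1 ⌊X⌋₊ := by
      intro n hn
      rw [mem_Ioc] at hn
      rw [mem_Icc]
      exact ⟨hn.1, hn.2.trans (Nat.floor_le_floor (by linarith))⟩
    have h2 : ∑ n ∈ Ioc 0 ⌊X / 2⌋₊, Real.log 2 * ArithmeticFunction.vonMangoldt n ≤
        ∑ n ∈ Ioc 0 ⌊X / 2⌋₊, ArithmeticFunction.vonMangoldt n * Real.log (X / n) := by
      apply sum_le_sum
      intro n hn
      rw [mem_Ioc] at hn
      have hn1 : (1 : ℝ) ≤ n := by exact_mod_cast hn.1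
      have hn2 : (n : ℝ) ≤ X / 2 := (Nat.le_floor_iff (by linarith)).1 hn.2
      rw [mul_comm]
      apply mul_le_mul_of_nonneg_left _ ArithmeticFunction.vonMangoldt_nonneg
      apply Real.log_le_log (by norm_num)
      rw [le_div_iff₀ (by linarith)]
      linarith
    refine h2.trans (sum_le_sum_of_subset_of_nonneg hsub ?_)
    intro n hn _
    exact mul_nonneg ArithmeticFunction.vonMangoldt_nonneg (log_div_bounds X n (by linarith) hn).1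
  have h3 := Chebyshev.psi_ge' (x := X / 2) (by linarith)
  have h4 : Real.log (X / 2 + 2) ≤ X / 200 + 5 := by
    have h5 := Real.log_le_sub_one_of_pos (x := (X / 2 + 2) / 100) (by linarith)
    have h6 : Real.log (X / 2 + 2) = Real.log ((X / 2 + 2) / 100) + Real.log 100 := by
      rw [← Real.log_mul (by positivity) (by norm_num)]
      congr 1
      ring
    have h7 : Real.log 100 ≤ 5 := by
      have h8 : Real.log 100 ≤ Real.log (2 ^ 7) := Real.log_le_log (by norm_num) (by norm_num)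
      rw [Real.log_pow] at h8
      have := Real.log_two_lt_d9
      push_cast at h8
      linarith
    rw [h6]
    linarith
  have h5 := Real.log_two_gt_d9
  have h6 := Real.log_two_lt_d9
  have h7 : (X / 2 - 1) * 0.69 - (X / 200 + 5) ≤ Chebyshev.psi (X / 2) := by nlinarith
  have h8 : 0 ≤ (X / 2 - 1) * 0.69 - (X / 200 + 5) := by linarith
  have h9 : 0.69 * ((X / 2 - 1) * 0.69 - (X / 200 + 5)) ≤ Real.log 2 * Chebyshev.psi (X / 2) := by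
    apply mul_le_mul (by linarith) h7 h8 (by linarith)
  refine le_trans ?_ (h9.trans h1)
  linarith

end Pool.Agent.K9h59.PC
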