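import Pool.Agent.K9h59.PC.A

/-!
Primes `≡ 1 (mod q)` at the height `2 ^ (2 m + 8 t)` for a prime `q` near `2 ^ m` with small nonprincipal part.
-/

set_option autoImplicit false

namespace Pool.Agent.K9h59.PC

open Finset
open Pool.Agent.H398R2.BV Pool.Agent.H410R2 Pool.Agent.Helper112

/-- the primes `≡ 1 (mod q)` in `[2 ^ (2 m), 2 ^ (2 m + 8 t))` -/
def SS (m t q : ℕ) : Finset ℕ :=
  (Ico (2 ^ (2 * m)) (2 ^ (2 * m + 8 * t))).filter (fun p => p.Prime ∧ p ≡ 1 [MOD q])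

theorem card_class (q Y : ℕ) (hq : 1 ≤ q) :
    (((Icc 1 Y).filter (fun n => n ≡ 1 [MOD q])).card : ℝ) ≤ Y / q + 1 := by
  have h1 : ((Icc 1 Y).filter (fun n => n ≡ 1 [MOD q])).card ≤ Y / q + 1 := by
    have : (Icc 1 Y).filter (fun n => n ≡ 1 [MOD q]) ⊆ (range (Y / q + 1)).image (fun k => 1 + q * k) := by
      intro n hn
      rw [mem_filter, mem_Icc] at hn
      obtain ⟨⟨h1, h2⟩, h3⟩ := hn
      have h4 : q ∣ n - 1 := (Nat.modEq_iff_dvd' h1).1 h3.symm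
      obtain ⟨k, hk⟩ := h4
      rw [mem_image]
      refine ⟨k, ?_, by omega⟩
      rw [mem_range, Nat.lt_succ_iff, Nat.le_div_iff_mul_le (by omega), mul_comm]
      omega
    refine (card_le_card this).trans (card_image_le.trans ?_)
    rw [card_range]
  have h2 : ((Y / q : ℕ) : ℝ) ≤ (Y : ℝ) / q := Nat.cast_div_le
  have h3 : ((((Icc 1 Y).filter (fun n => n ≡ 1 [MOD q])).card : ℕ) : ℝ) ≤ ((Y / q + 1 : ℕ) : ℝ) := by exact_mod_cast h1
  push_cast at h3
  linarith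

/-- the number of the primes `≡ 1 (mod q)` from below -/
theorem AP_le (m t q : ℕ) (hm : 5 ≤ m) (ht : 1 ≤ t) (hq1 : 2 ^ m ≤ q) :
    psiLogAP (XR m t) q 1 ≤ (SS m t q).card * Real.log (XR m t) ^ 2 +
      4 * Real.sqrt (XR m t) * Real.log (XR m t) ^ 2 - 2 * Real.log (XR m t) ^ 2 := by
  classical
  have hX := one_le_XR m t
  have hL : 0 ≤ Real.log (XR m t) := Real.log_nonneg hX
  have hfl : ⌊XR m t⌋₊ = 2 ^ (2 * m + 8 * t) := by
    unfold XR
    have : ((2 : ℝ) ^ (2 * m + 8 * t)) = ((2 ^ (2 * m + 8 * t) : ℕ) : ℝ) := by push_cast; rfl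
    rw [this, Nat.floor_natCast]
  obtain ⟨L, hLd⟩ : ∃ L, L = Real.log (XR m t) := ⟨_, rfl⟩
  have hlog : ∀ n ∈ Icc 1 ⌊XR m t⌋₊, 0 ≤ Real.log (XR m t / n) ∧ Real.log (XR m t / n) ≤ L := by
    intro n hn
    rw [hLd]
    exact log_div_bounds _ n hX hn
  have hvm : ∀ n ∈ Icc 1 ⌊XR m t⌋₊, ArithmeticFunction.vonMangoldt n ≤ L := by
    intro n hn
    rw [mem_Icc] at hn
    refine ArithmeticFunction.vonMangoldt_le_log.trans ?_
    rw [hLd]
    apply Real.log_le_log (by exact_mod_cast hn.1)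
    exact (Nat.le_floor_iff (by linarith)).1 hn.2
  have hL0 : 0 ≤ L := by rw [hLd]; exact hL
  -- split in three parts
  have hsplit : (Icc 1 ⌊XR m t⌋₊).filter (fun n => n ≡ 1 [MOD q]) ⊆
      (SS m t q) ∪ ((Icc 1 (2 ^ (2 * m))).filter (fun n => n ≡ 1 [MOD q]) ∪
        (Ioc 0 ⌊XR m t⌋₊).filter (fun n => ¬ n.Prime)) := by
    intro n hn
    rw [mem_filter, mem_Icc] at hn
    obtain ⟨⟨h1, h2⟩, h3⟩ := hn
    rw [mem_union, mem_union]
    by_cases hp : n.Prime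
    · by_cases hs : n ≤ 2 ^ (2 * m)
      · right; left
        rw [mem_filter, mem_Icc]
        exact ⟨⟨h1, hs⟩, h3⟩
      · left
        unfold SS
        rw [mem_filter, mem_Ico]
        refine ⟨⟨by omega, ?_⟩, hp, h3⟩
        rw [hfl] at h2
        rcases h2.lt_or_eq with h4 | h4
        · exact h4
        · exfalso
          rw [h4] at hp
          have h5 : 2 ∣ 2 ^ (2 * m + 8 * t) := dvd_pow_self 2 (by omega)
          have h6 := (Nat.prime_dvd_prime_iff_eq Nat.prime_two hp).1 h5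
          have h7 : 2 ^ 2 ≤ 2 ^ (2 * m + 8 * t) := Nat.pow_le_pow_right (by norm_num) (by omega)
          omega
    · right; right
      rw [mem_filter, mem_Ioc]
      exact ⟨⟨by omega, h2⟩, hp⟩
  have hnn : ∀ n ∈ (SS m t q) ∪ ((Icc 1 (2 ^ (2 * m))).filter (fun n => n ≡ 1 [MOD q]) ∪
        (Ioc 0 ⌊XR m t⌋₊).filter (fun n => ¬ n.Prime)), n ∈ Icc 1 ⌊XR m t⌋₊ := by
    intro n hn
    rw [mem_union, mem_union] at hn
    rw [hfl]
    rcases hn with hn | hn | hn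
    · unfold SS at hn
      rw [mem_filter, mem_Ico] at hn
      rw [mem_Icc]
      exact ⟨hn.2.1.one_le, hn.1.2.le⟩
    · rw [mem_filter, mem_Icc] at hn
      rw [mem_Icc]
      exact ⟨hn.1.1, hn.1.2.trans (Nat.pow_le_pow_right (by norm_num) (by omega))⟩
    · rw [hfl, mem_filter, mem_Ioc] at hn
      rw [mem_Icc]
      exact ⟨hn.1.1, hn.1.2⟩
  obtain ⟨F, hF⟩ : ∃ F : ℕ → ℝ, F = fun n => ArithmeticFunction.vonMangoldt n * Real.log (XR m t / n) := ⟨_, rfl⟩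
  have hF0 : ∀ n ∈ Icc 1 ⌊XR m t⌋₊, 0 ≤ F n := by
    intro n hn
    rw [hF]
    exact mul_nonneg ArithmeticFunction.vonMangoldt_nonneg (hlog n hn).1
  have hF1 : ∀ n ∈ Icc 1 ⌊XR m t⌋₊, F n ≤ L ^ 2 := by
    intro n hn
    rw [hF, pow_two]
    exact mul_le_mul (hvm n hn) (hlog n hn).2 (hlog n hn).1 hL0
  have h1 : psiLogAP (XR m t) q 1 ≤ ∑ n ∈ (SS m t q) ∪ ((Icc 1 (2 ^ (2 * m))).filter (fun n => n ≡ 1 [MOD q]) ∪
        (Ioc 0 ⌊XR m t⌋₊).filter (fun n => ¬ n.Prime)), F n := by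
    unfold psiLogAP
    rw [hF]
    refine sum_le_sum_of_subset_of_nonneg hsplit ?_
    intro n hn _
    have := hF0 n (hnn n hn)
    rw [hF] at this
    exact this
  have hun : ∀ A B : Finset ℕ, (∀ n ∈ A ∪ B, 0 ≤ F n) → ∑ n ∈ A ∪ B, F n ≤ ∑ n ∈ A, F n + ∑ n ∈ B, F n := by
    intro A B h
    rw [← sum_union_inter]
    have : 0 ≤ ∑ n ∈ A ∩ B, F n := sum_nonneg fun n hn => h n (mem_union_left _ (mem_inter.1 hn).1)
    linarith
  have h2 := hun _ _ (fun n hn => hF0 n (hnn n hn))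
  have h3 := hun _ _ (fun n hn => hF0 n (hnn n (mem_union_right _ hn)))
  -- the three parts
  have p1 : ∑ n ∈ SS m t q, F n ≤ (SS m t q).card * L ^ 2 := by
    rw [← nsmul_eq_mul]
    exact sum_le_card_nsmul _ _ _ fun n hn => hF1 n (hnn n (mem_union_left _ hn))
  have p2 : ∑ n ∈ (Icc 1 (2 ^ (2 * m))).filter (fun n => n ≡ 1 [MOD q]), F n ≤ (2 ^ m + 1) * L ^ 2 := by
    have e1 : ∑ n ∈ (Icc 1 (2 ^ (2 * m))).filter (fun n => n ≡ 1 [MOD q]), F n ≤
        ((Icc 1 (2 ^ (2 * m))).filter (fun n => n ≡ 1 [MOD q])).card * L ^ 2 := by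
      rw [← nsmul_eq_mul]
      exact sum_le_card_nsmul _ _ _ fun n hn => hF1 n (hnn n (mem_union_right _ (mem_union_left _ hn)))
    refine e1.trans ?_
    have hq0 : 1 ≤ q := Nat.one_le_two_pow.trans hq1
    have e2 := card_class q (2 ^ (2 * m)) hq0
    have e3 : ((2 ^ (2 * m) : ℕ) : ℝ) / q ≤ 2 ^ m := by
      have hq' : (2 : ℝ) ^ m ≤ q := by exact_mod_cast hq1
      have hq'' : (0 : ℝ) < q := by exact_mod_cast hq0
      rw [div_le_iff₀ hq'']
      push_cast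
      calc (2 : ℝ) ^ (2 * m) = 2 ^ m * 2 ^ m := by rw [← pow_add]; congr 1; ring
        _ ≤ 2 ^ m * q := by gcongr
    gcongr
    linarith
  have p3 : ∑ n ∈ (Ioc 0 ⌊XR m t⌋₊).filter (fun n => ¬ n.Prime), F n ≤ 2 * Real.sqrt (XR m t) * L ^ 2 := by
    have e1 : ∑ n ∈ (Ioc 0 ⌊XR m t⌋₊).filter (fun n => ¬ n.Prime), F n ≤
        ∑ n ∈ (Ioc 0 ⌊XR m t⌋₊).filter (fun n => ¬ n.Prime), ArithmeticFunction.vonMangoldt n * L := by
      apply sum_le_sum
      intro n hn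
      rw [hF]
      exact mul_le_mul_of_nonneg_left (hlog n (hnn n (mem_union_right _ (mem_union_right _ hn)))).2
        ArithmeticFunction.vonMangoldt_nonneg
    rw [← sum_mul, ← Chebyshev.psi_sub_theta_eq_sum_not_prime] at e1
    have e2 := Chebyshev.psi_sub_theta_le hX
    rw [← hLd] at e2
    refine e1.trans ?_
    calc _ ≤ (2 * Real.sqrt (XR m t) * L) * L := mul_le_mul_of_nonneg_right e2 hL0
      _ = _ := by ring
  have hfin : (2 : ℝ) ^ m + 3 ≤ 2 * Real.sqrt (XR m t) := by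
    rw [sqrt_XR]
    have : (2 : ℝ) ^ m ≤ 2 ^ (m + 4 * t) := pow_le_pow_right₀ (by norm_num) (by omega)
    have h3 : (3 : ℝ) ≤ 2 ^ (m + 4 * t) := by
      calc (3 : ℝ) ≤ 2 ^ 2 := by norm_num
        _ ≤ _ := pow_le_pow_right₀ (by norm_num) (by omega)
    linarith
  rw [← hLd]
  have h9 : ((2 : ℝ) ^ m + 3) * L ^ 2 ≤ 2 * Real.sqrt (XR m t) * L ^ 2 := mul_le_mul_of_nonneg_right hfin (by positivity)
  nlinarith

/-- a prime with small nonprincipal part has many primes `≡ 1` -/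
theorem many_of_small (m t q : ℕ) (hm : 5 ≤ m) (ht : 1 ≤ t) (hq : q.Prime) (hq1 : 2 ^ m ≤ q)
    (hq2 : q < 2 ^ (m + 1)) (hD : DD (XR m t) q ≤ XR m t / (20 * 2 ^ m))
    (hlog : 160 * Real.log (XR m t) ^ 2 ≤ 2 ^ (4 * t)) :
    XR m t / (40 * 2 ^ m) ≤ (SS m t q).card * Real.log (XR m t) ^ 2 := by
  have hX := one_le_XR m t
  have hX1000 : 1000 ≤ XR m t := by
    unfold XR
    calc (1000 : ℝ) ≤ 2 ^ 10 := by norm_num
      _ ≤ _ := pow_le_pow_right₀ (by norm_num) (by omega)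
  have h1 := disc_le (XR m t) hX q 1 hq.one_le (Nat.coprime_one_left q)
  have h2 : ∑ f ∈ q.divisors.filter (fun f => f ≠ 1), ∑ ψ ∈ Prim f, ‖psiLog (XR m t) f ψ‖ =
      ∑ ψ ∈ Prim q, ‖psiLog (XR m t) q ψ‖ := by
    have : q.divisors.filter (fun f => f ≠ 1) = {q} := by
      rw [hq.divisors]
      ext f
      simp only [mem_filter, mem_insert, mem_singleton]
      constructor
      · rintro ⟨h | h, h'⟩
        · exact absurd h h'
        · exact h
      · intro h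
        exact ⟨Or.inr h, by rw [h]; exact hq.one_lt.ne'⟩
    rw [this, sum_singleton]
  rw [h2, hq.primeFactors, card_singleton] at h1
  have h3 := (abs_le.1 h1).1
  have h4 : psiLog1 (XR m t) / Nat.totient q ≥ XR m t / (10 * 2 ^ m) := by
    have e1 := psiLog1_ge (XR m t) hX1000
    have e2 : (Nat.totient q : ℝ) ≤ 2 ^ (m + 1) := by
      have : Nat.totient q ≤ 2 ^ (m + 1) := (Nat.totient_le q).trans hq2.le
      exact_mod_cast this
    have e3 : (0 : ℝ) < Nat.totient q := by exact_mod_cast Nat.totient_pos.2 hq.pos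
    rw [ge_iff_le, div_le_div_iff₀ (by positivity) e3]
    have e4 : 0 < XR m t := by linarith
    rw [pow_succ] at e2
    nlinarith
  have h5 := AP_le m t q hm ht hq1
  have h6 : (1 / (Nat.totient q : ℝ)) * ∑ ψ ∈ Prim q, ‖psiLog (XR m t) q ψ‖ ≤ XR m t / (20 * 2 ^ m) := hD
  have h7 : 4 * Real.sqrt (XR m t) * Real.log (XR m t) ^ 2 ≤ XR m t / (40 * 2 ^ m) := by
    have e1 : XR m t = Real.sqrt (XR m t) * (2 ^ m * 2 ^ (4 * t)) := by
      rw [sqrt_XR, ← pow_add, ← pow_add]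
      unfold XR
      congr 1
      ring
    have e2 : 0 ≤ Real.sqrt (XR m t) := Real.sqrt_nonneg _
    have e3 : XR m t / (40 * 2 ^ m) = Real.sqrt (XR m t) * (2 ^ (4 * t) / 40) := by
      rw [div_eq_iff (by positivity)]
      conv_lhs => rw [e1]
      field_simp
    rw [e3]
    nlinarith
  have h8 : XR m t / (10 * 2 ^ m) = 4 * (XR m t / (40 * 2 ^ m)) := by
    field_simp
    ring
  have h9 : XR m t / (20 * 2 ^ m) = 2 * (XR m t / (40 * 2 ^ m)) := by
    field_simp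
    ring
  push_cast at h3
  rw [h8] at h4
  rw [h9] at h6
  linarith

/-- few primes have a large nonprincipal part -/
theorem few_large (m t : ℕ) (hm : 1 ≤ m) (htm : t ≤ m) :
    ((((Ico (2 ^ m) (2 ^ (m + 1))).filter Nat.Prime).filter
      (fun q => XR m t / (20 * 2 ^ m) < DD (XR m t) q)).card : ℝ) ≤
      1520 * 2 ^ m * (1 + Real.log (XR m t)) ^ 5 / 2 ^ t := by
  have hX : 0 < XR m t := lt_of_lt_of_le one_pos (one_le_XR m t)
  have h1 := total_DD m t hm htm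
  have h2 : ((((Ico (2 ^ m) (2 ^ (m + 1))).filter Nat.Prime).filter
      (fun q => XR m t / (20 * 2 ^ m) < DD (XR m t) q)).card : ℝ) * (XR m t / (20 * 2 ^ m)) ≤
      ∑ q ∈ (Ico (2 ^ m) (2 ^ (m + 1))).filter Nat.Prime, DD (XR m t) q := by
    rw [← nsmul_eq_mul]
    refine (card_nsmul_le_sum _ (fun q => DD (XR m t) q) _ ?_).trans
      (sum_le_sum_of_subset_of_nonneg (filter_subset _ _) fun q _ _ => DD_nonneg _ _)
    intro q hq
    exact (mem_filter.1 hq).2.le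
  have h3 := h2.trans h1
  rw [← le_div_iff₀ (by positivity)] at h3
  refine h3.trans (le_of_eq ?_)
  field_simp
  ring

end Pool.Agent.K9h59.PC
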