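import Pool.Agent.K9h59.PC.B

/-!
The primes without long chains of successors, along the generations.
-/

set_option autoImplicit false

namespace Pool.Agent.K9h59.PC

open Finset

/-- `3 ⌊log₂ m⌋ ^ 2` -/
def tt (m : ℕ) : ℕ := 3 * Nat.log 2 m ^ 2

/-- the successors of `q`: the primes `p ≡ 1 (mod q)`, `2 ^ (2 m) ≤ p < 2 ^ (2 m + 24 ⌊log₂ m⌋ ^ 2)`, `m = ⌊log₂ q⌋` -/
def Sc (q : ℕ) : Finset ℕ := SS (Nat.log 2 q) (tt (Nat.log 2 q)) q

/-- there is no chain `q, q₁, …, q_n` of successors -/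
def Bad : ℕ → ℕ → Prop
  | 0, _ => False
  | n + 1, q => ∀ p ∈ Sc q, Bad n p

theorem bad_succ (n : ℕ) : ∀ q : ℕ, Bad n q → Bad (n + 1) q := by
  induction n with
  | zero => intro q h; exact absurd h id
  | succ n ih => intro q h p hp; exact ih p (h p hp)

theorem bad_mono {a b : ℕ} (h : a ≤ b) (q : ℕ) (hq : Bad a q) : Bad b q := by
  induction b, h using Nat.le_induction with
  | base => exact hq
  | succ b _ ih => exact bad_succ b q ih

theorem sq_le_two_pow (l : ℕ) (hl : 12 ≤ l) : 24 * l ^ 2 ≤ 2 ^ l := by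
  induction l, hl using Nat.le_induction with
  | base => norm_num
  | succ l h ih =>
    rw [pow_succ 2 l]
    nlinarith

theorem log_facts (m : ℕ) (hm : 4096 ≤ m) : 12 ≤ Nat.log 2 m ∧ 2 ^ Nat.log 2 m ≤ m ∧ m < 2 ^ (Nat.log 2 m + 1) ∧
    8 * tt m ≤ m := by
  have h1 : 2 ^ Nat.log 2 m ≤ m := Nat.pow_log_le_self 2 (by omega)
  have h2 : 12 ≤ Nat.log 2 m := Nat.le_log_of_pow_le (by norm_num) (by norm_num; exact hm)
  refine ⟨h2, h1, Nat.lt_pow_succ_log_self (by norm_num) m, ?_⟩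
  have h3 := sq_le_two_pow _ h2
  unfold tt
  omega

theorem log_XR (m : ℕ) (hm : 4096 ≤ m) : 1 + Real.log (XR m (tt m)) ≤ 2 ^ (Nat.log 2 m + 3) := by
  obtain ⟨_, _, h3, h4⟩ := log_facts m hm
  unfold XR
  rw [Real.log_pow]
  have h5 : ((2 * m + 8 * tt m : ℕ) : ℝ) ≤ 3 * m := by
    have : 2 * m + 8 * tt m ≤ 3 * m := by omega
    exact_mod_cast this
  have h6 : (m : ℝ) ≤ 2 ^ (Nat.log 2 m + 1) := by exact_mod_cast h3.le
  have h7 := Real.log_two_lt_d9
  have h8 : (4096 : ℝ) ≤ m := by exact_mod_cast hm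
  have h9 : ((2 * m + 8 * tt m : ℕ) : ℝ) * Real.log 2 ≤ 3 * m * 0.7 := by
    have := Real.log_two_gt_d9
    apply mul_le_mul h5 (by linarith) (by linarith) (by linarith)
  have h10 : (2 : ℝ) ^ (Nat.log 2 m + 3) = 4 * 2 ^ (Nat.log 2 m + 1) := by
    rw [show Nat.log 2 m + 3 = (Nat.log 2 m + 1) + 2 by ring, pow_add]
    ring
  rw [h10]
  linarith

theorem two_divisors (m t : ℕ) (ht : 8 * t ≤ m) (N : Finset ℕ) (hN : ∀ q ∈ N, q.Prime ∧ 2 ^ m ≤ q) (p : ℕ) :
    (N.filter (fun q => p ∈ SS m t q)).card ≤ 2 := by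
  by_contra hcon
  push Not at hcon
  have hne : (N.filter (fun q => p ∈ SS m t q)).Nonempty := by
    rw [← card_pos]
    omega
  obtain ⟨q0, hq0⟩ := hne
  rw [mem_filter] at hq0
  have hp := hq0.2
  unfold SS at hp
  rw [mem_filter, mem_Ico] at hp
  obtain ⟨⟨hp1, hp2⟩, hpp, _⟩ := hp
  have h1 : ∏ q ∈ N.filter (fun q => p ∈ SS m t q), q ∣ p - 1 := by
    apply Finset.prod_primes_dvd
    · intro q hq
      exact (hN q (mem_filter.1 hq).1).1.prime
    · intro q hq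
      have h2 := (mem_filter.1 hq).2
      unfold SS at h2
      rw [mem_filter] at h2
      exact (Nat.modEq_iff_dvd' hpp.one_le).1 h2.2.2.symm
  have h2 : (2 ^ m) ^ (N.filter (fun q => p ∈ SS m t q)).card ≤ ∏ q ∈ N.filter (fun q => p ∈ SS m t q), q := by
    apply Finset.pow_card_le_prod
    intro q hq
    exact (hN q (mem_filter.1 hq).1).2
  have h3 : ∏ q ∈ N.filter (fun q => p ∈ SS m t q), q ≤ p - 1 := by
    apply Nat.le_of_dvd _ h1
    have := hpp.two_le
    omega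
  have h4 : (2 ^ m) ^ 3 ≤ (2 ^ m) ^ (N.filter (fun q => p ∈ SS m t q)).card :=
    Nat.pow_le_pow_right (Nat.one_le_two_pow) hcon
  have h5 : 2 ^ (2 * m + 8 * t) ≤ (2 ^ m) ^ 3 := by
    rw [← pow_mul]
    exact Nat.pow_le_pow_right (by norm_num) (by omega)
  omega

theorem double_count (m t : ℕ) (ht : 8 * t ≤ m) (N P : Finset ℕ) (hN : ∀ q ∈ N, q.Prime ∧ 2 ^ m ≤ q)
    (hP : ∀ q ∈ N, SS m t q ⊆ P) : ∑ q ∈ N, (SS m t q).card ≤ 2 * P.card := by
  have h1 : ∀ q ∈ N, (SS m t q).card = ∑ p ∈ P, if p ∈ SS m t q then 1 else 0 := by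
    intro q hq
    rw [← card_filter]
    congr 1
    ext p
    rw [mem_filter]
    exact ⟨fun h => ⟨hP q hq h, h⟩, fun h => h.2⟩
  rw [sum_congr rfl h1, sum_comm, mul_comm, ← smul_eq_mul]
  apply sum_le_card_nsmul
  intro p _
  rw [← card_filter]
  exact two_divisors m t ht N hN p

theorem geom (b : ℕ) : ∑ j ∈ range b, (2 : ℝ) ^ j ≤ 2 ^ b := by
  induction b with
  | zero => simp
  | succ b ih =>
    rw [sum_range_succ, pow_succ]
    linarith

open Classical in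
/-- the bad primes of a dyadic block -/
noncomputable def Bs (n m : ℕ) : Finset ℕ := (Ico (2 ^ m) (2 ^ (m + 1))).filter (fun q => q.Prime ∧ Bad n q)

open Classical in
theorem block_sum (n a b l : ℕ) (h : ∀ j, a ≤ j → ((Bs n j).card : ℝ) ≤ 2 ^ j / 2 ^ (2 * Nat.log 2 j ^ 2))
    (hl : l ≤ Nat.log 2 a) :
    (((Ico (2 ^ a) (2 ^ b)).filter (fun q => q.Prime ∧ Bad n q)).card : ℝ) ≤ 2 ^ b / 2 ^ (2 * l ^ 2) := by
  have hsub : (Ico (2 ^ a) (2 ^ b)).filter (fun q => q.Prime ∧ Bad n q) ⊆ (Ico a b).biUnion (fun j => Bs n j) := by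
    intro q hq
    rw [mem_filter, mem_Ico] at hq
    obtain ⟨⟨h1, h2⟩, h3⟩ := hq
    have hq0 : q ≠ 0 := by
      have : 1 ≤ 2 ^ a := Nat.one_le_two_pow
      omega
    rw [mem_biUnion]
    refine ⟨Nat.log 2 q, ?_, ?_⟩
    · rw [mem_Ico]
      refine ⟨Nat.le_log_of_pow_le (by norm_num) h1, Nat.log_lt_of_lt_pow hq0 h2⟩
    · unfold Bs
      rw [mem_filter, mem_Ico]
      exact ⟨⟨Nat.pow_log_le_self 2 hq0, Nat.lt_pow_succ_log_self (by norm_num) q⟩, h3⟩
  have h1 : (((Ico (2 ^ a) (2 ^ b)).filter (fun q => q.Prime ∧ Bad n q)).card : ℝ) ≤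
      ∑ j ∈ Ico a b, ((Bs n j).card : ℝ) := by
    have := (card_le_card hsub).trans card_biUnion_le
    exact_mod_cast this
  refine h1.trans ?_
  calc ∑ j ∈ Ico a b, ((Bs n j).card : ℝ) ≤ ∑ j ∈ Ico a b, 2 ^ j / 2 ^ (2 * l ^ 2) := by
        apply sum_le_sum
        intro j hj
        rw [mem_Ico] at hj
        refine (h j hj.1).trans ?_
        have h5 : Nat.log 2 a ≤ Nat.log 2 j := Nat.log_mono_right hj.1
        apply div_le_div_of_nonneg_left (by positivity) (by positivity)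
        apply pow_le_pow_right₀ (by norm_num)
        have h6 : l ≤ Nat.log 2 j := hl.trans h5
        have h7 := Nat.pow_le_pow_left h6 2
        omega
    _ = (∑ j ∈ Ico a b, (2 : ℝ) ^ j) / 2 ^ (2 * l ^ 2) := by rw [sum_div]
    _ ≤ _ := by
        apply div_le_div_of_nonneg_right _ (by positivity)
        refine le_trans (sum_le_sum_of_subset_of_nonneg ?_ fun _ _ _ => by positivity) (geom b)
        intro j hj
        rw [mem_Ico] at hj
        exact mem_range.2 hj.2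

open Classical in
theorem bad_count (n : ℕ) : ∀ m : ℕ, 4096 ≤ m → ((Bs n m).card : ℝ) ≤ 2 ^ m / 2 ^ (2 * Nat.log 2 m ^ 2) := by
  induction n with
  | zero =>
    intro m _
    have : Bs 0 m = ∅ := by
      unfold Bs
      apply filter_false_of_mem
      intro q _ h
      exact h.2
    rw [this, card_empty, Nat.cast_zero]
    positivity
  | succ n ih =>
    intro m hm
    obtain ⟨hl, hl1, hl2, htm⟩ := log_facts m hm
    obtain ⟨l, hld⟩ : ∃ l, l = Nat.log 2 m := ⟨_, rfl⟩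
    obtain ⟨t, htd⟩ : ∃ t, t = tt m := ⟨_, rfl⟩
    have htl : t = 3 * l ^ 2 := by rw [htd, hld]; rfl
    have hlog := log_XR m hm
    rw [← htd] at htm hlog
    rw [← hld] at hl hl1 hl2 hlog ⊢
    have hl1 : 1 ≤ l ^ 2 := Nat.one_le_pow _ _ (by omega)
    have hX := one_le_XR m t
    have hL : 0 ≤ Real.log (XR m t) := Real.log_nonneg hX
    obtain ⟨L, hLd⟩ : ∃ L, L = Real.log (XR m t) := ⟨_, rfl⟩
    have hL1 : 1 + L ≤ 2 ^ (l + 3) := by rw [hLd]; exact hlog
    have hL0 : 0 ≤ L := by rw [hLd]; exact hL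
    have hLsq : L ^ 2 ≤ 2 ^ (2 * l + 6) := by
      calc L ^ 2 ≤ (2 ^ (l + 3)) ^ 2 := by
            apply pow_le_pow_left₀ hL0
            linarith
        _ = _ := by rw [← pow_mul]; congr 1; ring
    -- the exceptional primes
    obtain ⟨D, hDd⟩ : ∃ D, D = (Ico (2 ^ m) (2 ^ (m + 1))).filter Nat.Prime := ⟨_, rfl⟩
    have hE := few_large m t (by omega) (by omega)
    rw [← hDd, ← hLd] at hE
    have hE2 : ((D.filter (fun q => XR m t / (20 * 2 ^ m) < DD (XR m t) q)).card : ℝ) ≤ 2 ^ m / 2 ^ (2 * l ^ 2 + 1) := by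
      refine hE.trans ?_
      rw [div_le_div_iff₀ (by positivity) (by positivity)]
      have e1 : (1 + L) ^ 5 ≤ 2 ^ (5 * l + 15) := by
        calc (1 + L) ^ 5 ≤ (2 ^ (l + 3)) ^ 5 := pow_le_pow_left₀ (by linarith) hL1 5
          _ = _ := by rw [← pow_mul]; congr 1; ring
      calc 1520 * 2 ^ m * (1 + L) ^ 5 * 2 ^ (2 * l ^ 2 + 1) ≤
          2 ^ 11 * 2 ^ m * 2 ^ (5 * l + 15) * 2 ^ (2 * l ^ 2 + 1) := by
            gcongr
            norm_num
        _ = 2 ^ m * 2 ^ (11 + (5 * l + 15) + (2 * l ^ 2 + 1)) := by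
            rw [pow_add, pow_add]
            ring
        _ ≤ 2 ^ m * 2 ^ t := by
            apply mul_le_mul_of_nonneg_left _ (by positivity)
            apply pow_le_pow_right₀ (by norm_num)
            rw [htl]
            nlinarith
    -- the other bad primes
    obtain ⟨N, hNd⟩ : ∃ N, N = D.filter (fun q => ¬ XR m t / (20 * 2 ^ m) < DD (XR m t) q ∧ Bad (n + 1) q) := ⟨_, rfl⟩
    have hNq : ∀ q ∈ N, q.Prime ∧ 2 ^ m ≤ q ∧ q < 2 ^ (m + 1) ∧ DD (XR m t) q ≤ XR m t / (20 * 2 ^ m) ∧ Bad (n + 1) q := by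
      intro q hq
      rw [hNd, hDd, mem_filter, mem_filter, mem_Ico] at hq
      exact ⟨hq.1.2, hq.1.1.1, hq.1.1.2, not_lt.1 hq.2.1, hq.2.2⟩
    obtain ⟨P, hPd⟩ : ∃ P, P = (Ico (2 ^ (2 * m)) (2 ^ (2 * m + 8 * t))).filter (fun q => q.Prime ∧ Bad n q) := ⟨_, rfl⟩
    have hSP : ∀ q ∈ N, SS m t q ⊆ P := by
      intro q hq p hp
      obtain ⟨h1, h2, h3, h4, h5⟩ := hNq q hq
      have h6 : Nat.log 2 q = m := (Nat.log_eq_iff (Or.inr ⟨by norm_num, by
        have : 1 ≤ 2 ^ m := Nat.one_le_two_pow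
        omega⟩)).2 ⟨h2, h3⟩
      have h7 : p ∈ Sc q := by
        unfold Sc
        rw [h6, ← htd]
        exact hp
      have h8 := h5 p h7
      unfold SS at hp
      rw [mem_filter] at hp
      rw [hPd, mem_filter]
      exact ⟨hp.1, hp.2.1, h8⟩
    have hdc := double_count m t htm N P (fun q hq => ⟨(hNq q hq).1, (hNq q hq).2.1⟩) hSP
    have hP : (P.card : ℝ) ≤ XR m t / 2 ^ (2 * (l + 1) ^ 2) := by
      rw [hPd]
      unfold XR
      refine block_sum n (2 * m) (2 * m + 8 * t) (l + 1) (fun j hj => ih j (by omega)) ?_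
      rw [hld]
      have : Nat.log 2 (m * 2) = Nat.log 2 m + 1 := Nat.log_mul_base (by norm_num) (by omega)
      rw [mul_comm 2 m, this]
    have h160 : 160 * Real.log (XR m t) ^ 2 ≤ 2 ^ (4 * t) := by
      rw [← hLd]
      calc 160 * L ^ 2 ≤ 2 ^ 8 * 2 ^ (2 * l + 6) := by
            gcongr
            norm_num
        _ = 2 ^ (8 + (2 * l + 6)) := (pow_add _ _ _).symm
        _ ≤ _ := by
            apply pow_le_pow_right₀ (by norm_num)
            rw [htl]
            nlinarith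
    have hlow : (N.card : ℝ) * (XR m t / (40 * 2 ^ m)) ≤ (∑ q ∈ N, ((SS m t q).card : ℝ)) * L ^ 2 := by
      rw [← nsmul_eq_mul, sum_mul]
      apply card_nsmul_le_sum
      intro q hq
      obtain ⟨h1, h2, h3, h4, _⟩ := hNq q hq
      have := many_of_small m t q (by omega) (by rw [htl]; omega) h1 h2 h3 h4 h160
      rw [← hLd] at this
      exact this
    have hN2 : (N.card : ℝ) ≤ 2 ^ m / 2 ^ (2 * l ^ 2 + 1) := by
      have h1 : (∑ q ∈ N, ((SS m t q).card : ℝ)) ≤ 2 * (XR m t / 2 ^ (2 * (l + 1) ^ 2)) := by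
        have : (∑ q ∈ N, ((SS m t q).card : ℝ)) ≤ 2 * (P.card : ℝ) := by exact_mod_cast hdc
        linarith
      have h2 : (N.card : ℝ) * (XR m t / (40 * 2 ^ m)) ≤ 2 * (XR m t / 2 ^ (2 * (l + 1) ^ 2)) * 2 ^ (2 * l + 6) :=
        hlow.trans (mul_le_mul h1 hLsq (by positivity) (by positivity))
      have hX0 : 0 < XR m t := by linarith
      rw [← le_div_iff₀ (by positivity)] at h2
      refine h2.trans ?_
      have h3 : 2 * (XR m t / 2 ^ (2 * (l + 1) ^ 2)) * 2 ^ (2 * l + 6) / (XR m t / (40 * 2 ^ m)) =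
          80 * 2 ^ m * 2 ^ (2 * l + 6) / 2 ^ (2 * (l + 1) ^ 2) := by
        field_simp
        ring
      rw [h3, div_le_div_iff₀ (by positivity) (by positivity)]
      calc (80 : ℝ) * 2 ^ m * 2 ^ (2 * l + 6) * 2 ^ (2 * l ^ 2 + 1) ≤ 2 ^ 7 * 2 ^ m * 2 ^ (2 * l + 6) * 2 ^ (2 * l ^ 2 + 1) := by
            gcongr
            norm_num
        _ = 2 ^ m * 2 ^ (7 + (2 * l + 6) + (2 * l ^ 2 + 1)) := by
            rw [pow_add, pow_add]
            ring
        _ ≤ 2 ^ m * 2 ^ (2 * (l + 1) ^ 2) := by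
            apply mul_le_mul_of_nonneg_left _ (by positivity)
            apply pow_le_pow_right₀ (by norm_num)
            nlinarith
    have hsub : Bs (n + 1) m ⊆ (D.filter (fun q => XR m t / (20 * 2 ^ m) < DD (XR m t) q)) ∪ N := by
      intro q hq
      unfold Bs at hq
      rw [mem_filter] at hq
      rw [mem_union]
      have hqD : q ∈ D := by rw [hDd, mem_filter]; exact ⟨hq.1, hq.2.1⟩
      by_cases h : XR m t / (20 * 2 ^ m) < DD (XR m t) q
      · left; rw [mem_filter]; exact ⟨hqD, h⟩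
      · right; rw [hNd, mem_filter]; exact ⟨hqD, h, hq.2.2⟩
    have hfin : ((Bs (n + 1) m).card : ℝ) ≤
        ((D.filter (fun q => XR m t / (20 * 2 ^ m) < DD (XR m t) q)).card : ℝ) + N.card := by
      have := (card_le_card hsub).trans (card_union_le _ _)
      exact_mod_cast this
    have h6 : (2 : ℝ) ^ m / 2 ^ (2 * l ^ 2) = 2 ^ m / 2 ^ (2 * l ^ 2 + 1) + 2 ^ m / 2 ^ (2 * l ^ 2 + 1) := by
      rw [pow_succ]
      field_simp
      ring
    rw [h6]
    linarith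

end Pool.Agent.K9h59.PC
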