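import Pool.Agent.K9h59.PC.C

/-!
Infinite chains of successors, and their growth.
-/

set_option autoImplicit false

namespace Pool.Agent.K9h59.PC

open Finset

theorem bad_sup (S : Finset ℕ) : ∃ N : ℕ, ∀ q ∈ S, (∃ n, Bad n q) → Bad N q := by
  classical
  choose! f hf using fun (q : ℕ) (h : ∃ n, Bad n q) => h
  refine ⟨S.sup f, fun q hq h => bad_mono (Finset.le_sup hq) q (hf q h)⟩

/-- the primes `q ≥ 2 ^ 4096` from which chains of successors of all lengths start -/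
def Good (q : ℕ) : Prop := q.Prime ∧ 4096 ≤ Nat.log 2 q ∧ ∀ n, ¬ Bad n q

theorem mem_Sc {q p : ℕ} (h : p ∈ Sc q) : 2 ^ (2 * Nat.log 2 q) ≤ p ∧ p < 2 ^ (2 * Nat.log 2 q + 8 * tt (Nat.log 2 q)) ∧
    p.Prime ∧ p ≡ 1 [MOD q] := by
  unfold Sc SS at h
  rw [mem_filter, mem_Ico] at h
  exact ⟨h.1.1, h.1.2, h.2.1, h.2.2⟩

theorem good_succ (q : ℕ) (h : Good q) : ∃ p ∈ Sc q, Good p := by
  by_contra hcon
  push Not at hcon
  obtain ⟨N, hN⟩ := bad_sup (Sc q)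
  apply h.2.2 (N + 1)
  intro p hp
  apply hN p hp
  by_contra hb
  push Not at hb
  obtain ⟨h1, h2, h3, h4⟩ := mem_Sc hp
  refine hcon p hp ⟨h3, ?_, hb⟩
  have h5 := h.2.1
  have h6 : 2 * Nat.log 2 q ≤ Nat.log 2 p := Nat.le_log_of_pow_le (by norm_num) h1
  omega

theorem chain (q : ℕ) (h : Good q) : ∃ c : ℕ → ℕ, c 0 = q ∧ ∀ k, Good (c k) ∧ c (k + 1) ∈ Sc (c k) := by
  classical
  choose! f hf using good_succ
  have hg : ∀ k, Good (f^[k] q) := by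
    intro k
    induction k with
    | zero => exact h
    | succ k ih =>
      rw [Function.iterate_succ_apply']
      exact (hf _ ih).2
  refine ⟨fun k => f^[k] q, rfl, fun k => ⟨hg k, ?_⟩⟩
  beta_reduce
  rw [Function.iterate_succ_apply']
  exact (hf _ (hg k)).1

theorem log_step (m m' : ℕ) (hm : 4096 ≤ m) (h : m' ≤ 2 * m + 8 * tt m) :
    m' + 48 * Nat.log 2 m' ^ 2 ≤ 2 * (m + 48 * Nat.log 2 m ^ 2) := by
  obtain ⟨hl, hl1, hl2, htm⟩ := log_facts m hm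
  have h1 : Nat.log 2 m' ≤ Nat.log 2 m + 2 := by
    have e1 : Nat.log 2 m' ≤ Nat.log 2 (m * 2 * 2) := Nat.log_mono_right (by omega)
    rw [Nat.log_mul_base (by norm_num) (by omega), Nat.log_mul_base (by norm_num) (by omega)] at e1
    exact e1
  unfold tt at h
  have h2 : Nat.log 2 m' ^ 2 ≤ (Nat.log 2 m + 2) ^ 2 := Nat.pow_le_pow_left h1 2
  nlinarith

theorem chain_growth (c : ℕ → ℕ) (hc : ∀ k, Good (c k) ∧ c (k + 1) ∈ Sc (c k)) (k : ℕ) :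
    Nat.log 2 (c k) + 48 * Nat.log 2 (Nat.log 2 (c k)) ^ 2 ≤
      2 ^ k * (Nat.log 2 (c 0) + 48 * Nat.log 2 (Nat.log 2 (c 0)) ^ 2) := by
  induction k with
  | zero => simp
  | succ k ih =>
    have h1 := (hc k).1.2.1
    have h2 := (mem_Sc (hc k).2)
    have h3 : Nat.log 2 (c (k + 1)) ≤ 2 * Nat.log 2 (c k) + 8 * tt (Nat.log 2 (c k)) :=
      (Nat.log_lt_of_lt_pow (hc (k + 1)).1.1.ne_zero h2.2.1).le
    have h4 := log_step _ _ h1 h3
    refine h4.trans ?_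
    rw [pow_succ]
    calc 2 * _ ≤ 2 * _ := Nat.mul_le_mul_left 2 ih
      _ = _ := by ring

theorem chain_le (c : ℕ → ℕ) (hc : ∀ k, Good (c k) ∧ c (k + 1) ∈ Sc (c k)) (k : ℕ) :
    c k ≤ c 0 ^ (3 * 2 ^ k) := by
  have h1 := chain_growth c hc k
  obtain ⟨hl, hl1, hl2, htm⟩ := log_facts _ (hc 0).1.2.1
  obtain ⟨hl', _⟩ := log_facts _ (hc k).1.2.1
  unfold tt at htm
  have h2 : Nat.log 2 (c 0) + 48 * Nat.log 2 (Nat.log 2 (c 0)) ^ 2 ≤ 3 * Nat.log 2 (c 0) := by omega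
  have h3 : Nat.log 2 (c k) + 1 ≤ 3 * 2 ^ k * Nat.log 2 (c 0) := by
    have e1 : 1 ≤ Nat.log 2 (Nat.log 2 (c k)) ^ 2 := Nat.one_le_pow _ _ (by omega)
    have e2 : 2 ^ k * (Nat.log 2 (c 0) + 48 * Nat.log 2 (Nat.log 2 (c 0)) ^ 2) ≤ 2 ^ k * (3 * Nat.log 2 (c 0)) :=
      Nat.mul_le_mul_left _ h2
    have e3 : 2 ^ k * (3 * Nat.log 2 (c 0)) = 3 * 2 ^ k * Nat.log 2 (c 0) := by ring
    omega
  have h4 : c k < 2 ^ (Nat.log 2 (c k) + 1) := Nat.lt_pow_succ_log_self (by norm_num) _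
  have h5 : 2 ^ Nat.log 2 (c 0) ≤ c 0 := Nat.pow_log_le_self 2 (hc 0).1.1.ne_zero
  calc c k ≤ 2 ^ (Nat.log 2 (c k) + 1) := h4.le
    _ ≤ 2 ^ (3 * 2 ^ k * Nat.log 2 (c 0)) := Nat.pow_le_pow_right (by norm_num) h3
    _ = (2 ^ Nat.log 2 (c 0)) ^ (3 * 2 ^ k) := by rw [← pow_mul]; congr 1; ring
    _ ≤ _ := Nat.pow_le_pow_left h5 _

theorem lt_of_mem (q p : ℕ) (hq : Good q) (hp : p ∈ Sc q) : q < p := by
  have h1 := mem_Sc hp
  have h2 := hq.2.1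
  have h4 : q < 2 ^ (Nat.log 2 q + 1) := Nat.lt_pow_succ_log_self (by norm_num) _
  have h5 : 2 ^ (Nat.log 2 q + 1) ≤ 2 ^ (2 * Nat.log 2 q) := Nat.pow_le_pow_right (by norm_num) (by omega)
  omega

theorem loglog_ge (q : ℕ) (hq : Good q) :
    ((Nat.log 2 (Nat.log 2 q) : ℝ) - 1) * Real.log 2 ≤ Real.log (Real.log q) := by
  obtain ⟨hl, hl1, hl2, htm⟩ := log_facts _ hq.2.1
  obtain ⟨m, hm⟩ : ∃ m, m = Nat.log 2 q := ⟨_, rfl⟩
  rw [← hm] at hl hl1 ⊢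
  have h5 : 2 ^ m ≤ q := by rw [hm]; exact Nat.pow_log_le_self 2 hq.1.ne_zero
  have h6 : (2 : ℝ) ^ m ≤ q := by exact_mod_cast h5
  have h7 : (m : ℝ) * Real.log 2 ≤ Real.log q := by
    rw [← Real.log_pow]
    exact Real.log_le_log (by positivity) h6
  have h8 : ((2 : ℝ) ^ Nat.log 2 m) ≤ m := by exact_mod_cast hl1
  have h9 := Real.log_two_gt_d9
  have h10 : (2 : ℝ) ^ Nat.log 2 m / 2 ≤ Real.log q := by
    have : (0 : ℝ) < 2 ^ Nat.log 2 m := by positivity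
    nlinarith
  have h11 : Real.log ((2 : ℝ) ^ Nat.log 2 m / 2) ≤ Real.log (Real.log q) := Real.log_le_log (by positivity) h10
  rw [Real.log_div (by positivity) (by norm_num), Real.log_pow] at h11
  linarith

theorem step_real (q p : ℕ) (hq : Good q) (hp : p ∈ Sc q) :
    (p : ℝ) ≤ (q : ℝ) ^ 2 * Real.exp (50 * Real.log (Real.log q) ^ 2) := by
  obtain ⟨hl, hl1, hl2, htm⟩ := log_facts _ hq.2.1
  have hy := loglog_ge q hq
  obtain ⟨_, h2, _⟩ := mem_Sc hp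
  obtain ⟨m, hm⟩ : ∃ m, m = Nat.log 2 q := ⟨_, rfl⟩
  rw [← hm] at hl hy h2
  obtain ⟨l, hld⟩ : ∃ l, l = Nat.log 2 m := ⟨_, rfl⟩
  rw [← hld] at hl hy
  have h5 : 2 ^ m ≤ q := by rw [hm]; exact Nat.pow_log_le_self 2 hq.1.ne_zero
  have h6 : (2 : ℝ) ^ m ≤ q := by exact_mod_cast h5
  have h7 : (p : ℝ) ≤ 2 ^ (2 * m + 8 * tt m) := by exact_mod_cast h2.le
  have h8 : (2 : ℝ) ^ (2 * m + 8 * tt m) = (2 ^ m) ^ 2 * 2 ^ (24 * l ^ 2) := by
    rw [← pow_mul, ← pow_add]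
    congr 1
    unfold tt
    rw [← hld]
    ring
  have h9 : (2 : ℝ) ^ (24 * l ^ 2) = Real.exp ((24 * l ^ 2 : ℕ) * Real.log 2) := by
    rw [Real.exp_nat_mul, Real.exp_log (by norm_num)]
  have hl' : (12 : ℝ) ≤ l := by exact_mod_cast hl
  have g1 := Real.log_two_gt_d9
  have g2 := Real.log_two_lt_d9
  have h10 : ((24 * l ^ 2 : ℕ) : ℝ) * Real.log 2 ≤ 50 * Real.log (Real.log q) ^ 2 := by
    have e1 : (((l : ℝ) - 1) * Real.log 2) ^ 2 ≤ Real.log (Real.log q) ^ 2 := by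
      apply pow_le_pow_left₀ _ hy
      apply mul_nonneg <;> linarith
    push_cast
    have e2 : 24 * (l : ℝ) ^ 2 * Real.log 2 ≤ 50 * (((l : ℝ) - 1) * Real.log 2) ^ 2 := by
      have e3 : 24 * (l : ℝ) ^ 2 ≤ 50 * ((l : ℝ) - 1) ^ 2 * 0.69 := by nlinarith
      have e4 : 0 ≤ 50 * ((l : ℝ) - 1) ^ 2 := by positivity
      calc 24 * (l : ℝ) ^ 2 * Real.log 2 ≤ (50 * ((l : ℝ) - 1) ^ 2 * 0.69) * Real.log 2 := by
            apply mul_le_mul_of_nonneg_right e3 (by linarith)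
        _ ≤ (50 * ((l : ℝ) - 1) ^ 2 * Real.log 2) * Real.log 2 := by
            apply mul_le_mul_of_nonneg_right _ (by linarith)
            apply mul_le_mul_of_nonneg_left _ e4
            linarith
        _ = _ := by ring
    linarith
  calc (p : ℝ) ≤ 2 ^ (2 * m + 8 * tt m) := h7
    _ = (2 ^ m) ^ 2 * 2 ^ (24 * l ^ 2) := h8
    _ ≤ (q : ℝ) ^ 2 * Real.exp (50 * Real.log (Real.log q) ^ 2) := by
        rw [h9]
        gcongr

/-- the number of the primes `≤ Q` -/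
theorem pi_ge (Q : ℕ) (hQ : 2 ^ 8192 ≤ Q) : (Q : ℝ) / (2 * Real.log Q) ≤ (Nat.primeCounting Q : ℝ) := by
  have h1 := Chebyshev.theta_le_pi_mul_log Q
  have h2 := Chebyshev.theta_ge Q
  have hQ1 : (2 : ℕ) ^ 64 ≤ Q := (Nat.pow_le_pow_right (by norm_num) (by norm_num)).trans hQ
  have hQR : (2 : ℝ) ^ 64 ≤ Q := by exact_mod_cast hQ1
  have hQ0 : (0 : ℝ) < Q := lt_of_lt_of_le (by positivity) hQR
  have hlog : 0 < Real.log Q := Real.log_pos (by linarith [show (1 : ℝ) < 2 ^ 64 by norm_num])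
  obtain ⟨s, hs⟩ : ∃ s, s = Real.sqrt (Real.sqrt Q) := ⟨_, rfl⟩
  have hs2 : s ^ 2 = Real.sqrt Q := by rw [hs]; exact Real.sq_sqrt (Real.sqrt_nonneg _)
  have hs4 : s ^ 4 = Q := by
    have e : s ^ 4 = (s ^ 2) ^ 2 := by ring
    rw [e, hs2]
    exact Real.sq_sqrt hQ0.le
  have hs0 : 0 ≤ s := by rw [hs]; exact Real.sqrt_nonneg _
  have hs16 : (2 : ℝ) ^ 16 ≤ s := by
    by_contra hcon
    push Not at hcon
    have : s ^ 4 < (2 ^ 16) ^ 4 := pow_lt_pow_left₀ hcon hs0 (by norm_num)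
    rw [hs4] at this
    have e : ((2 : ℝ) ^ 16) ^ 4 = 2 ^ 64 := by rw [← pow_mul]
    rw [e] at this
    linarith
  have hlogs : Real.log Q ≤ 4 * s := by
    rw [← hs4, Real.log_pow]
    have := Real.log_le_sub_one_of_pos (x := s) (by linarith [show (0 : ℝ) < 2 ^ 16 by norm_num])
    push_cast
    linarith
  have hlog1 : Real.log ((Q : ℝ) + 1) ≤ Real.log Q + 1 := by
    have e1 : (Q : ℝ) + 1 ≤ Q * Real.exp 1 := by
      have := Real.add_one_le_exp (1 : ℝ)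
      have hQ1' : (1 : ℝ) ≤ Q := by linarith [show (1 : ℝ) < 2 ^ 64 by norm_num]
      nlinarith
    have e2 := Real.log_le_log (by positivity) e1
    rwa [Real.log_mul (by positivity) (by positivity), Real.log_exp] at e2
  have h3 : (Q : ℝ) / 2 ≤ Chebyshev.theta Q := by
    refine le_trans ?_ h2
    have g1 := Real.log_two_gt_d9
    rw [← hs2]
    have e1 : 2 * s ^ 2 * Real.log Q ≤ 8 * s ^ 3 := by
      have : 0 ≤ 2 * s ^ 2 := by positivity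
      nlinarith
    have e2 : (2 : ℝ) ^ 16 * s ^ 3 ≤ s ^ 4 := by
      have : 0 ≤ s ^ 3 := by positivity
      nlinarith
    have e3 : (Q : ℝ) * 0.69 ≤ Q * Real.log 2 := by
      apply mul_le_mul_of_nonneg_left _ hQ0.le
      linarith
    have e4 : Real.log ((Q : ℝ) + 1) ≤ 4 * s + 1 := by linarith
    have e5 : s ≤ s ^ 3 := by
      have : 1 ≤ s := by linarith [show (1 : ℝ) < 2 ^ 16 by norm_num]
      exact le_self_pow₀ this (by norm_num)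
    rw [hs4] at e2
    norm_num at e2 hs16 ⊢
    linarith
  rw [div_le_iff₀ (by positivity)]
  nlinarith

end Pool.Agent.K9h59.PC
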