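import Pool.Agent.K9h59.PC.D

/-!
The number of the primes up to `Q` which do not start an infinite chain.
-/

set_option autoImplicit false

namespace Pool.Agent.K9h59.PC

open Finset

theorem final_ineq (Q : ℕ) (hQ : 2 ^ 8192 ≤ Q) (l : ℕ) (hl : l = Nat.log 2 (Nat.log 2 Q / 2)) :
    4 * (Q : ℝ) / 2 ^ (2 * l ^ 2) ≤ Real.exp (-Real.log (Real.log Q) ^ 2) * ((Q : ℝ) / (2 * Real.log Q)) := by
  have hQ0 : Q ≠ 0 := by
    have : 1 ≤ 2 ^ 8192 := Nat.one_le_two_pow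
    omega
  obtain ⟨J, hJ⟩ : ∃ J, J = Nat.log 2 Q := ⟨_, rfl⟩
  rw [← hJ] at hl
  have hJ1 : 8192 ≤ J := by rw [hJ]; exact Nat.le_log_of_pow_le (by norm_num) hQ
  obtain ⟨hl1, hl2, hl3, _⟩ := log_facts (J / 2) (by omega)
  rw [← hl] at hl1 hl2 hl3
  have hQ2 : Q < 2 ^ (J + 1) := by rw [hJ]; exact Nat.lt_pow_succ_log_self (by norm_num) Q
  have hQ3 : 2 ^ J ≤ Q := by rw [hJ]; exact Nat.pow_log_le_self 2 hQ0
  have g1 := Real.log_two_gt_d9
  have g2 := Real.log_two_lt_d9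
  have hQR : (0 : ℝ) < Q := by exact_mod_cast Nat.pos_of_ne_zero hQ0
  have hJR : (8192 : ℝ) ≤ J := by exact_mod_cast hJ1
  have hlogQ : Real.log Q ≤ 2 ^ (l + 2) := by
    have e1 : Real.log Q ≤ Real.log ((2 : ℝ) ^ (J + 1)) := Real.log_le_log hQR (by exact_mod_cast hQ2.le)
    rw [Real.log_pow] at e1
    push_cast at e1
    have e2 : ((J : ℝ) + 1) * Real.log 2 ≤ J := by nlinarith
    have e3 : J ≤ 2 ^ (l + 2) := by
      rw [pow_succ]
      omega
    have e4 : (J : ℝ) ≤ 2 ^ (l + 2) := by exact_mod_cast e3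
    linarith
  have hlogQ1 : 2 ≤ Real.log Q := by
    have e1 : Real.log ((2 : ℝ) ^ J) ≤ Real.log Q := Real.log_le_log (by positivity) (by exact_mod_cast hQ3)
    rw [Real.log_pow] at e1
    nlinarith
  have hy0 : 0 ≤ Real.log (Real.log Q) := Real.log_nonneg (by linarith)
  have hy1 : Real.log (Real.log Q) ≤ (l + 2) * Real.log 2 := by
    have e1 := Real.log_le_log (by linarith) hlogQ
    rw [Real.log_pow] at e1
    push_cast at e1
    exact e1
  have hl' : (12 : ℝ) ≤ l := by exact_mod_cast hl1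
  -- the main inequality
  have key : 8 * Real.log Q * Real.exp (Real.log (Real.log Q) ^ 2) ≤ 2 ^ (2 * l ^ 2) := by
    have e1 : (2 : ℝ) ^ (2 * l ^ 2) = Real.exp ((2 * l ^ 2 : ℕ) * Real.log 2) := by
      rw [Real.exp_nat_mul, Real.exp_log (by norm_num)]
    have e2 : 8 * Real.log Q ≤ Real.exp ((l + 5 : ℕ) * Real.log 2) := by
      rw [Real.exp_nat_mul, Real.exp_log (by norm_num)]
      calc 8 * Real.log Q ≤ 8 * 2 ^ (l + 2) := by linarith
        _ = 2 ^ (l + 5) := by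
          rw [show l + 5 = (l + 2) + 3 by ring, pow_add (2 : ℝ) (l + 2) 3]
          ring
    calc 8 * Real.log Q * Real.exp (Real.log (Real.log Q) ^ 2) ≤
        Real.exp ((l + 5 : ℕ) * Real.log 2) * Real.exp (Real.log (Real.log Q) ^ 2) := by gcongr
      _ = Real.exp ((l + 5 : ℕ) * Real.log 2 + Real.log (Real.log Q) ^ 2) := by rw [Real.exp_add]
      _ ≤ 2 ^ (2 * l ^ 2) := by
          rw [e1]
          apply Real.exp_le_exp.2
          push_cast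
          have e3 : Real.log (Real.log Q) ^ 2 ≤ ((l + 2) * Real.log 2) ^ 2 := pow_le_pow_left₀ hy0 hy1 2
          have e4 : (((l : ℝ) + 2) * Real.log 2) ^ 2 ≤ 0.7 * ((l : ℝ) + 2) ^ 2 * Real.log 2 := by
            have : 0 ≤ ((l : ℝ) + 2) ^ 2 := by positivity
            nlinarith
          have e5 : ((l : ℝ) + 5) + 0.7 * ((l : ℝ) + 2) ^ 2 ≤ 2 * (l : ℝ) ^ 2 := by nlinarith
          have e6 : (((l : ℝ) + 5) + 0.7 * ((l : ℝ) + 2) ^ 2) * Real.log 2 ≤ 2 * (l : ℝ) ^ 2 * Real.log 2 := by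
            apply mul_le_mul_of_nonneg_right e5 (by linarith)
          linarith
  rw [Real.exp_neg, div_le_iff₀ (by positivity)]
  have h1 : 0 < Real.exp (Real.log (Real.log Q) ^ 2) := Real.exp_pos _
  have h2 : (Real.exp (Real.log (Real.log Q) ^ 2))⁻¹ * ((Q : ℝ) / (2 * Real.log Q)) * 2 ^ (2 * l ^ 2) =
      (Q * 2 ^ (2 * l ^ 2)) / (2 * Real.log Q * Real.exp (Real.log (Real.log Q) ^ 2)) := by
    field_simp
  rw [h2, le_div_iff₀ (by positivity)]
  calc 4 * (Q : ℝ) * (2 * Real.log Q * Real.exp (Real.log (Real.log Q) ^ 2)) =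
      Q * (8 * Real.log Q * Real.exp (Real.log (Real.log Q) ^ 2)) := by ring
    _ ≤ Q * 2 ^ (2 * l ^ 2) := by gcongr

open Classical in
theorem count_not_good (Q : ℕ) (hQ : 2 ^ 8192 ≤ Q) :
    (((Icc 1 Q).filter (fun q => q.Prime ∧ ¬ Good q)).card : ℝ) ≤
      Real.exp (-Real.log (Real.log Q) ^ 2) * Nat.primeCounting Q := by
  have hQ0 : Q ≠ 0 := by
    have : 1 ≤ 2 ^ 8192 := Nat.one_le_two_pow
    omega
  obtain ⟨J, hJ⟩ : ∃ J, J = Nat.log 2 Q := ⟨_, rfl⟩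
  have hJ1 : 8192 ≤ J := by rw [hJ]; exact Nat.le_log_of_pow_le (by norm_num) hQ
  obtain ⟨l, hl⟩ : ∃ l, l = Nat.log 2 (J / 2) := ⟨_, rfl⟩
  obtain ⟨hl1, hl2, hl3, hl4⟩ := log_facts (J / 2) (by omega)
  unfold tt at hl4
  rw [← hl] at hl1 hl2 hl3 hl4
  have hQ2 : Q < 2 ^ (J + 1) := by rw [hJ]; exact Nat.lt_pow_succ_log_self (by norm_num) Q
  have hQ3 : 2 ^ J ≤ Q := by rw [hJ]; exact Nat.pow_log_le_self 2 hQ0
  obtain ⟨N, hN⟩ := bad_sup (Icc 1 Q)
  have hsub : (Icc 1 Q).filter (fun q => q.Prime ∧ ¬ Good q) ⊆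
      range (2 ^ (J / 2)) ∪ (Ico (2 ^ (J / 2)) (2 ^ (J + 1))).filter (fun q => q.Prime ∧ Bad N q) := by
    intro q hq
    have hq' := hq
    rw [mem_filter, mem_Icc] at hq
    obtain ⟨⟨h1, h2⟩, h3, h4⟩ := hq
    rw [mem_union]
    by_cases h : q < 2 ^ (J / 2)
    · left; exact mem_range.2 h
    · right
      push Not at h
      rw [mem_filter, mem_Ico]
      refine ⟨⟨h, by omega⟩, h3, ?_⟩
      apply hN q (mem_filter.1 hq').1
      by_contra hb
      push Not at hb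
      apply h4
      refine ⟨h3, ?_, hb⟩
      have : J / 2 ≤ Nat.log 2 q := Nat.le_log_of_pow_le (by norm_num) h
      omega
  have h1 : (((Icc 1 Q).filter (fun q => q.Prime ∧ ¬ Good q)).card : ℝ) ≤ (2 : ℝ) ^ (J / 2) +
      (((Ico (2 ^ (J / 2)) (2 ^ (J + 1))).filter (fun q => q.Prime ∧ Bad N q)).card : ℝ) := by
    have := (card_le_card hsub).trans (card_union_le _ _)
    rw [card_range] at this
    exact_mod_cast this
  have h2 := block_sum N (J / 2) (J + 1) l (fun j hj => bad_count N j (by omega)) (by rw [hl])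
  have h3 : (2 : ℝ) ^ (J / 2) ≤ 2 ^ (J + 1) / 2 ^ (2 * l ^ 2) := by
    rw [le_div_iff₀ (by positivity), ← pow_add]
    apply pow_le_pow_right₀ (by norm_num)
    omega
  have h4 : (2 : ℝ) ^ (J + 1) ≤ 2 * Q := by
    rw [pow_succ]
    have : (2 : ℝ) ^ J ≤ Q := by exact_mod_cast hQ3
    linarith
  have h5 : (((Icc 1 Q).filter (fun q => q.Prime ∧ ¬ Good q)).card : ℝ) ≤ 4 * (Q : ℝ) / 2 ^ (2 * l ^ 2) := by
    have : (2 : ℝ) ^ (J + 1) / 2 ^ (2 * l ^ 2) ≤ 2 * Q / 2 ^ (2 * l ^ 2) := by gcongr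
    have e : 4 * (Q : ℝ) / 2 ^ (2 * l ^ 2) = 2 * Q / 2 ^ (2 * l ^ 2) + 2 * Q / 2 ^ (2 * l ^ 2) := by ring
    rw [e]
    linarith
  refine h5.trans ((final_ineq Q hQ l (by rw [hl, hJ])).trans ?_)
  gcongr
  exact pi_ge Q hQ

theorem primeCounting_eq (Q : ℕ) : Nat.primeCounting Q = ((Icc 1 Q).filter Nat.Prime).card := by
  rw [Nat.primeCounting, Nat.primeCounting', Nat.count_eq_card_filter_range]
  congr 1
  ext p
  simp only [mem_filter, mem_range, mem_Icc]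
  constructor
  · rintro ⟨h1, h2⟩
    exact ⟨⟨h2.one_le, by omega⟩, h2⟩
  · rintro ⟨⟨_, h1⟩, h2⟩
    exact ⟨by omega, h2⟩

end Pool.Agent.K9h59.PC
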