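import Pool.Agent.K9h59.PC.E

/-!
The growth of the chains, in real numbers, and the count.
-/

set_option autoImplicit false

namespace Pool.Agent.K9h59.PC

open Finset

theorem chain_le_real (c : ℕ → ℕ) (hc : ∀ k, Good (c k) ∧ c (k + 1) ∈ Sc (c k)) (k : ℕ) :
    (c k : ℝ) ≤ ((c 0 : ℝ) * Real.exp (100 * Real.log (Real.log (c 0)) ^ 2)) ^ (2 ^ k) := by
  have h1 := chain_growth c hc k
  have hq := (hc 0).1
  obtain ⟨hl', _⟩ := log_facts _ (hc k).1.2.1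
  obtain ⟨hl, _, _, _⟩ := log_facts _ hq.2.1
  have hy := loglog_ge _ hq
  obtain ⟨m, hm⟩ : ∃ m, m = Nat.log 2 (c 0) := ⟨_, rfl⟩
  obtain ⟨l, hld⟩ : ∃ l, l = Nat.log 2 m := ⟨_, rfl⟩
  rw [← hm, ← hld] at hl hy h1
  have h3 : Nat.log 2 (c k) + 1 ≤ 2 ^ k * (m + 48 * l ^ 2) := by
    have e1 : 1 ≤ Nat.log 2 (Nat.log 2 (c k)) ^ 2 := Nat.one_le_pow _ _ (by omega)
    omega
  have h4 : c k < 2 ^ (Nat.log 2 (c k) + 1) := Nat.lt_pow_succ_log_self (by norm_num) _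
  have h5 : 2 ^ m ≤ c 0 := by rw [hm]; exact Nat.pow_log_le_self 2 hq.1.ne_zero
  have h6 : (2 : ℝ) ^ m ≤ c 0 := by exact_mod_cast h5
  have h7 : c k ≤ 2 ^ (2 ^ k * (m + 48 * l ^ 2)) := h4.le.trans (Nat.pow_le_pow_right (by norm_num) h3)
  have h8 : (c k : ℝ) ≤ 2 ^ (2 ^ k * (m + 48 * l ^ 2)) := by exact_mod_cast h7
  have h9 : (2 : ℝ) ^ (2 ^ k * (m + 48 * l ^ 2)) = (2 ^ m * 2 ^ (48 * l ^ 2)) ^ (2 ^ k) := by
    rw [← pow_add, ← pow_mul]
    congr 1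
    ring
  have h10 : (2 : ℝ) ^ (48 * l ^ 2) = Real.exp ((48 * l ^ 2 : ℕ) * Real.log 2) := by
    rw [Real.exp_nat_mul, Real.exp_log (by norm_num)]
  have hl2 : (12 : ℝ) ≤ l := by exact_mod_cast hl
  have g1 := Real.log_two_gt_d9
  have g2 := Real.log_two_lt_d9
  have h11 : ((48 * l ^ 2 : ℕ) : ℝ) * Real.log 2 ≤ 100 * Real.log (Real.log (c 0)) ^ 2 := by
    have e1 : (((l : ℝ) - 1) * Real.log 2) ^ 2 ≤ Real.log (Real.log (c 0)) ^ 2 := by
      apply pow_le_pow_left₀ _ hy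
      apply mul_nonneg <;> linarith
    push_cast
    have e2 : 48 * (l : ℝ) ^ 2 * Real.log 2 ≤ 100 * (((l : ℝ) - 1) * Real.log 2) ^ 2 := by
      have e3 : 48 * (l : ℝ) ^ 2 ≤ 100 * ((l : ℝ) - 1) ^ 2 * 0.69 := by nlinarith
      have e4 : 0 ≤ 100 * ((l : ℝ) - 1) ^ 2 := by positivity
      calc 48 * (l : ℝ) ^ 2 * Real.log 2 ≤ (100 * ((l : ℝ) - 1) ^ 2 * 0.69) * Real.log 2 := by
            apply mul_le_mul_of_nonneg_right e3 (by linarith)
        _ ≤ (100 * ((l : ℝ) - 1) ^ 2 * Real.log 2) * Real.log 2 := by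
            apply mul_le_mul_of_nonneg_right _ (by linarith)
            apply mul_le_mul_of_nonneg_left _ e4
            linarith
        _ = _ := by ring
    linarith
  rw [h9, h10] at h8
  refine h8.trans ?_
  apply pow_le_pow_left₀ (by positivity)
  gcongr

/-- the infinite chains from a good prime -/
theorem starts (q : ℕ) (hq : Good q) : ∃ c : ℕ → ℕ, c 0 = q ∧ StrictMono c ∧ ∀ k, (c k).Prime ∧
    c (k + 1) ≡ 1 [MOD c k] ∧
    (c (k + 1) : ℝ) ≤ (c k : ℝ) ^ 2 * Real.exp (50 * Real.log (Real.log (c k)) ^ 2) ∧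
    (c k : ℝ) ≤ ((q : ℝ) * Real.exp (100 * Real.log (Real.log q) ^ 2)) ^ (2 ^ k) := by
  obtain ⟨c, h0, hc⟩ := chain q hq
  refine ⟨c, h0, strictMono_nat_of_lt_succ fun k => lt_of_mem _ _ (hc k).1 (hc k).2, fun k => ?_⟩
  refine ⟨(hc k).1.1, (mem_Sc (hc k).2).2.2.2, step_real _ _ (hc k).1 (hc k).2, ?_⟩
  have := chain_le_real c hc k
  rw [h0] at this
  exact this

open Classical in
/-- the count, for any property which the good primes have -/
theorem count_good (P : ℕ → Prop) (hP : ∀ q, Good q → P q) (Q : ℕ) (hQ : 2 ^ 8192 ≤ Q) :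
    (1 - Real.exp (-Real.log (Real.log Q) ^ 2)) * Nat.primeCounting Q ≤
      (((Icc 1 Q).filter (fun q => q.Prime ∧ P q)).card : ℝ) := by
  have h1 := count_not_good Q hQ
  have h2 : ((Icc 1 Q).filter Nat.Prime).card ≤ ((Icc 1 Q).filter (fun q => q.Prime ∧ P q)).card +
      ((Icc 1 Q).filter (fun q => q.Prime ∧ ¬ Good q)).card := by
    refine le_trans (card_le_card ?_) (card_union_le _ _)
    intro q hq
    rw [mem_filter] at hq
    rw [mem_union, mem_filter, mem_filter]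
    by_cases h : Good q
    · exact Or.inl ⟨hq.1, hq.2, hP q h⟩
    · exact Or.inr ⟨hq.1, hq.2, h⟩
  rw [← primeCounting_eq] at h2
  have h3 : (Nat.primeCounting Q : ℝ) ≤ (((Icc 1 Q).filter (fun q => q.Prime ∧ P q)).card : ℝ) +
      (((Icc 1 Q).filter (fun q => q.Prime ∧ ¬ Good q)).card : ℝ) := by exact_mod_cast h2
  linarith

end Pool.Agent.K9h59.PC
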